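import Pool.Agent.Helper793.ABCD.Main
import Pool.Agent.Helper793.ABCD.SumTwoSq

set_option autoImplicit false

namespace Pool.Agent.Results.MP_110442_nt.AllConditions

open Filter Topology

/-- `n` is solvable: `n = (a+b)(c+d)` and `abcd = 1` for some positive rationals `a, b, c, d`. -/
def Solvable (n : ℕ) : Prop :=
  ∃ a b c d : ℚ, 0 < a ∧ 0 < b ∧ 0 < c ∧ 0 < d ∧ (n : ℚ) = (a + b) * (c + d) ∧ a * b * c * d = 1

open Classical in
/-- The number of solvable `n < N`. -/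
noncomputable def count (N : ℕ) : ℕ := ((Finset.range N).filter (fun n => Solvable n)).card

theorem density : Tendsto (fun N : ℕ => (count N : ℝ) / N) atTop (𝓝 0) := by
  classical
  rw [Metric.tendsto_atTop]
  intro ε hε
  obtain ⟨X₀, hX₀⟩ := Pool.Agent.Helper793.ABCD.SumTwoSq.density_zero
    {r : ℕ | Solvable (r + 4)} (by
      intro r hr
      obtain ⟨-, -, -, ⟨x, y, hxy⟩, -⟩ := Pool.Agent.Helper793.ABCD.main hr
      exact ⟨x, y, by omega⟩) (ε / 2) (by linarith)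
  refine ⟨max X₀ 1, fun N hN => ?_⟩
  have hN1 : 1 ≤ N := le_trans (le_max_right _ _) hN
  have hN0 : X₀ ≤ N := le_trans (le_max_left _ _) hN
  have hNR : (0 : ℝ) < N := by exact_mod_cast hN1
  have h1 := hX₀ N hN0
  have h2 : count N ≤ ((Finset.range N).filter (· ∈ {r : ℕ | Solvable (r + 4)})).card := by
    unfold count
    apply Finset.card_le_card_of_injOn (fun n => n - 4)
    · intro n hn
      have hn' := Finset.mem_filter.1 (Finset.mem_coe.1 hn)
      obtain ⟨D⟩ := Pool.Agent.Helper793.ABCD.step2 hn'.2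
      have h4 := D.four_le
      apply Finset.mem_coe.2
      rw [Finset.mem_filter]
      refine ⟨?_, ?_⟩
      · have := Finset.mem_range.1 hn'.1
        apply Finset.mem_range.2
        show n - 4 < N
        omega
      · show Solvable (n - 4 + 4)
        rw [Nat.sub_add_cancel h4]; exact hn'.2
    · intro a ha b hb hab
      have ha' := Finset.mem_filter.1 (Finset.mem_coe.1 ha)
      have hb' := Finset.mem_filter.1 (Finset.mem_coe.1 hb)
      obtain ⟨Da⟩ := Pool.Agent.Helper793.ABCD.step2 ha'.2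
      obtain ⟨Db⟩ := Pool.Agent.Helper793.ABCD.step2 hb'.2
      have h4 := Da.four_le
      have h5 := Db.four_le
      have hab' : a - 4 = b - 4 := hab
      omega
  have h3 : (count N : ℝ) ≤ ε / 2 * N := by
    refine le_trans ?_ h1
    exact_mod_cast h2
  rw [Real.dist_eq, sub_zero, abs_of_nonneg (by positivity), div_lt_iff₀ hNR]
  nlinarith

theorem not_four_dvd {x y A k : ℕ} (hc : Nat.Coprime x y) (h : x ^ 2 + y ^ 2 = A * k) : ¬ 4 ∣ A := by
  intro h4
  have h5 : 4 ∣ x ^ 2 + y ^ 2 := by rw [h]; exact h4.mul_right k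
  have key : ∀ u v : ZMod 4, u ^ 2 + v ^ 2 = 0 → 2 * u = 0 ∧ 2 * v = 0 := by decide
  have h6 : ((x : ZMod 4)) ^ 2 + (y : ZMod 4) ^ 2 = 0 := by
    have := (ZMod.natCast_eq_zero_iff (x ^ 2 + y ^ 2) 4).2 h5
    exact_mod_cast this
  obtain ⟨hx, hy⟩ := key _ _ h6
  have hx' : 4 ∣ 2 * x := (ZMod.natCast_eq_zero_iff (2 * x) 4).1 (by exact_mod_cast hx)
  have hy' : 4 ∣ 2 * y := (ZMod.natCast_eq_zero_iff (2 * y) 4).1 (by exact_mod_cast hy)
  exact Nat.Prime.not_coprime_iff_dvd.2 ⟨2, Nat.prime_two, by omega, by omega⟩ hc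

/-- Necessary conditions for solvability, and density zero of the solvable integers. -/
theorem result :
    (∀ n : ℕ, Solvable n →
      (n % 72 = 5 ∨ n % 72 = 13 ∨ n % 288 = 4 ∨ n % 288 = 68) ∧
      (∀ p : ℕ, p.Prime → p ∣ n → p % 4 ≠ 3) ∧
      (∃ x y : ℕ, n = 4 + (x ^ 2 + y ^ 2)) ∧
      (∃ x y : ℕ, n + 4 = x ^ 2 + y ^ 2) ∧
      ∃ A B : ℕ, n = A * B ∧ ¬ 4 ∣ A ∧ ¬ 4 ∣ B ∧
        ∀ p : ℕ, p.Prime → p ≠ 2 →
          (Odd (padicValNat p (n - 4)) ∨ Odd (padicValNat p (n + 4))) →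
          p % 4 = 1 ∧ IsSquare ((2 * A : ℕ) : ZMod p) ∧ IsSquare ((2 * B : ℕ) : ZMod p)) ∧
    Tendsto (fun N : ℕ => (count N : ℝ) / N) atTop (𝓝 0) := by
  refine ⟨fun n h => ?_, density⟩
  obtain ⟨D⟩ := Pool.Agent.Helper793.ABCD.step2 h
  have h8 := D.mod_eight
  have h9 := D.mod_nine
  refine ⟨by omega, fun p hp hd => D.no3 hp hd, ?_, D.sq_plus,
    D.A, D.B, D.hn, not_four_dvd D.cαδ D.h1, not_four_dvd D.cβγ D.h2,
    fun p hp h2 ho => D.qr hp h2 ho⟩
  obtain ⟨x, y, hxy⟩ := D.sq_minus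
  have h4 := D.four_le
  exact ⟨x, y, by omega⟩

end Pool.Agent.Results.MP_110442_nt.AllConditions
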